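import Pool.Agent.Helper15.T4.Stmts

set_option autoImplicit false

/-!
MP_e0a484_co, module SSC: the small subgraph conditioning method (finite form, without products of
infinite families).
-/

open Finset MeasureTheory Filter Topology

namespace Pool.Agent.Helper45.T4

open Pool.Agent.Helper15.T4

/-! ### The finite inequality -/

/-- Cauchy-Schwarz on the part of a class where `X` does not vanish. -/
theorem ssc_cs {A : Type} (U : Finset A) (X : A → ℕ) :
    (∑ x ∈ U, (X x : ℝ)) ^ 2 ≤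
      ((U.card : ℝ) - ((U.filter (fun x => X x = 0)).card : ℝ)) * ∑ x ∈ U, (X x : ℝ) ^ 2 := by
  have h1 : ∑ x ∈ U.filter (fun x => ¬ X x = 0), (X x : ℝ) = ∑ x ∈ U, (X x : ℝ) := by
    rw [Finset.sum_filter]
    refine Finset.sum_congr rfl (fun x _ => ?_)
    by_cases h : X x = 0
    · simp [h]
    · simp [h]
  have h2 : ∑ x ∈ U.filter (fun x => ¬ X x = 0), (X x : ℝ) ^ 2 = ∑ x ∈ U, (X x : ℝ) ^ 2 := by
    rw [Finset.sum_filter]
    refine Finset.sum_congr rfl (fun x _ => ?_)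
    by_cases h : X x = 0
    · simp [h]
    · simp [h]
  have h3 : ((U.filter (fun x => X x = 0)).card : ℝ) + ((U.filter (fun x => ¬ X x = 0)).card : ℝ) =
      (U.card : ℝ) := by
    exact_mod_cast Finset.card_filter_add_card_filter_not (s := U) (fun x => X x = 0)
  have h4 : (U.card : ℝ) - ((U.filter (fun x => X x = 0)).card : ℝ) =
      ((U.filter (fun x => ¬ X x = 0)).card : ℝ) := by linarith
  rw [h4, ← h1, ← h2]
  exact sq_sum_le_card_mul_sum_sq

/-- The algebra of one class. -/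
theorem ssc_alg (a b c p η : ℝ) (hη : 0 < η) (ha : 0 < a) (hp : 0 ≤ p) (hb : η / 2 * a ≤ b)
    (h : b ^ 2 ≤ (a - p) * c) (hc : 0 ≤ c) : p ≤ 4 / η ^ 2 * (c - b ^ 2 / a) := by
  have hb0 : 0 < b := lt_of_lt_of_le (by positivity) hb
  have hc0 : 0 < c := by
    rcases hc.lt_or_eq with h1 | h1
    · exact h1
    · exfalso
      rw [← h1] at h
      nlinarith [pow_pos hb0 2]
  have h1 : p * c ≤ a * c - b ^ 2 := by nlinarith
  have h2 : 0 ≤ a * c - b ^ 2 := le_trans (mul_nonneg hp hc) h1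
  have h3 : c - b ^ 2 / a = (a * c - b ^ 2) / a := by field_simp
  rw [h3]
  have h4 : η ^ 2 / 4 * a ^ 2 ≤ b ^ 2 := by nlinarith [mul_pos (half_pos hη) ha]
  have h5 : η ^ 2 / 4 * a ≤ c := by
    have : η ^ 2 / 4 * a * a ≤ c * a := by nlinarith
    exact le_of_mul_le_mul_right this ha
  have h6 : p ≤ (a * c - b ^ 2) / c := by rwa [le_div_iff₀ hc0]
  refine h6.trans ?_
  have h7 : 4 / η ^ 2 * ((a * c - b ^ 2) / a) = (a * c - b ^ 2) / (η ^ 2 / 4 * a) := by
    field_simp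
  rw [h7]
  exact div_le_div_of_nonneg_left h2 (by positivity) h5

/-- The finite inequality. -/
theorem ssc_fin {A ι : Type} [DecidableEq ι] (S G : Finset A) (X : A → ℕ) (Z : A → ι)
    (B B' H : Finset ι) (η : ℝ) (hη : 0 < η) (hGS : G ⊆ S) (hB : B' ⊆ B) (hHB : H ⊆ B')
    (hG : ∀ x ∈ G, Z x ∈ B → Z x ∈ B') (hs : 0 < S.card) (hT : 0 < ∑ x ∈ S, (X x : ℝ))
    (hH : ∀ z ∈ H, 0 < ((S.filter (fun x => Z x = z)).card : ℝ) / (S.card : ℝ) ∧
      η / 2 * (((S.filter (fun x => Z x = z)).card : ℝ) / (S.card : ℝ)) ≤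
        (∑ x ∈ S.filter (fun x => Z x = z), (X x : ℝ)) / ∑ x ∈ S, (X x : ℝ)) :
    ((G.filter (fun x => X x = 0)).card : ℝ) / (S.card : ℝ) ≤
      4 / η ^ 2 * ((∑ x ∈ S, (X x : ℝ) ^ 2) * (S.card : ℝ) / (∑ x ∈ S, (X x : ℝ)) ^ 2 -
        ∑ z ∈ B, ((∑ x ∈ S.filter (fun x => Z x = z), (X x : ℝ)) / ∑ x ∈ S, (X x : ℝ)) ^ 2 /
          (((S.filter (fun x => Z x = z)).card : ℝ) / (S.card : ℝ))) +
      (∑ z ∈ B' \ H, ((S.filter (fun x => Z x = z)).card : ℝ) / (S.card : ℝ)) +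
      (1 - ∑ z ∈ B, ((S.filter (fun x => Z x = z)).card : ℝ) / (S.card : ℝ)) := by
  classical
  set s : ℝ := (S.card : ℝ) with hsdef
  set T : ℝ := ∑ x ∈ S, (X x : ℝ) with hTdef
  have hs0 : 0 < s := by rw [hsdef]; exact_mod_cast hs
  set a : ι → ℝ := fun z => ((S.filter (fun x => Z x = z)).card : ℝ) / s with ha
  set b : ι → ℝ := fun z => (∑ x ∈ S.filter (fun x => Z x = z), (X x : ℝ)) / T with hb
  set c : ι → ℝ := fun z => (∑ x ∈ S.filter (fun x => Z x = z), (X x : ℝ) ^ 2) * s / T ^ 2 with hc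
  set p : ι → ℝ := fun z =>
    (((S.filter (fun x => Z x = z)).filter (fun x => X x = 0)).card : ℝ) / s with hp
  have hc0 : ∀ z, 0 ≤ c z := fun z => by
    rw [hc]; positivity
  have ha0 : ∀ z, 0 ≤ a z := fun z => by
    rw [ha]; positivity
  have hp0 : ∀ z, 0 ≤ p z := fun z => by
    rw [hp]; positivity
  have hpa : ∀ z, p z ≤ a z := fun z => by
    rw [hp, ha]
    refine div_le_div_of_nonneg_right ?_ hs0.le
    exact_mod_cast Finset.card_filter_le _ _
  have hcs : ∀ z, b z ^ 2 ≤ (a z - p z) * c z := fun z => by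
    have h := ssc_cs (S.filter (fun x => Z x = z)) X
    have e1 : b z ^ 2 = (∑ x ∈ S.filter (fun x => Z x = z), (X x : ℝ)) ^ 2 / T ^ 2 := by
      rw [hb]; exact div_pow _ _ _
    have e2 : (a z - p z) * c z = (((S.filter (fun x => Z x = z)).card : ℝ) -
        (((S.filter (fun x => Z x = z)).filter (fun x => X x = 0)).card : ℝ)) *
        (∑ x ∈ S.filter (fun x => Z x = z), (X x : ℝ) ^ 2) / T ^ 2 := by
      rw [ha, hp, hc]
      field_simp
    rw [e1, e2]
    exact div_le_div_of_nonneg_right h (by positivity)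
  have he0 : ∀ z, 0 ≤ c z - b z ^ 2 / a z := fun z => by
    rcases (ha0 z).lt_or_eq with h | h
    · have h1 : b z ^ 2 ≤ a z * c z := (hcs z).trans
        (mul_le_mul_of_nonneg_right (by linarith [hp0 z]) (hc0 z))
      have h2 : b z ^ 2 / a z ≤ c z := by
        rw [div_le_iff₀ h]; linarith
      linarith
    · rw [← h, div_zero]; linarith [hc0 z]
  -- the sum of `c`
  have hcB : ∑ z ∈ B, c z ≤ (∑ x ∈ S, (X x : ℝ) ^ 2) * s / T ^ 2 := by
    have e : ∑ z ∈ B, c z = (∑ x ∈ S with Z x ∈ B, (X x : ℝ) ^ 2) * s / T ^ 2 := by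
      rw [← Finset.sum_fiberwise_eq_sum_filter S B Z (fun x => (X x : ℝ) ^ 2), Finset.sum_mul,
        Finset.sum_div]
    rw [e]
    refine div_le_div_of_nonneg_right (mul_le_mul_of_nonneg_right ?_ hs0.le) (by positivity)
    exact Finset.sum_le_sum_of_subset_of_nonneg (Finset.filter_subset _ _)
      (fun x _ _ => by positivity)
  -- the cardinality
  have hcov : G.filter (fun x => X x = 0) ⊆
      (B'.biUnion (fun z => (S.filter (fun x => Z x = z)).filter (fun x => X x = 0))) ∪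
        S.filter (fun x => Z x ∉ B) := by
    intro x hx
    rw [Finset.mem_filter] at hx
    by_cases h : Z x ∈ B
    · refine Finset.mem_union_left _ (Finset.mem_biUnion.2 ⟨Z x, hG x hx.1 h, ?_⟩)
      simp [hGS hx.1, hx.2]
    · exact Finset.mem_union_right _ (Finset.mem_filter.2 ⟨hGS hx.1, h⟩)
  have hcard : ((G.filter (fun x => X x = 0)).card : ℝ) ≤
      ∑ z ∈ B', (((S.filter (fun x => Z x = z)).filter (fun x => X x = 0)).card : ℝ) +
        ((S.filter (fun x => Z x ∉ B)).card : ℝ) := by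
    have h1 := (Finset.card_le_card hcov).trans (Finset.card_union_le _ _)
    have h2 := Finset.card_biUnion_le (s := B')
      (t := fun z => (S.filter (fun x => Z x = z)).filter (fun x => X x = 0))
    have h3 := h1.trans (Nat.add_le_add_right h2 _)
    exact_mod_cast h3
  have hout : ((S.filter (fun x => Z x ∉ B)).card : ℝ) = s - ∑ z ∈ B,
      ((S.filter (fun x => Z x = z)).card : ℝ) := by
    have h1 := Finset.sum_fiberwise_eq_sum_filter S B Z (fun _ => (1 : ℝ))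
    simp only [Finset.sum_const, nsmul_eq_mul, mul_one] at h1
    rw [h1]
    have h2 : ((S.filter (fun x => Z x ∈ B)).card : ℝ) + ((S.filter (fun x => ¬ Z x ∈ B)).card : ℝ) =
        (S.card : ℝ) := by
      exact_mod_cast Finset.card_filter_add_card_filter_not (s := S) (fun x => Z x ∈ B)
    rw [hsdef]
    linarith
  have hmain : ((G.filter (fun x => X x = 0)).card : ℝ) / s ≤ ∑ z ∈ B', p z + (1 - ∑ z ∈ B, a z) := by
    have e1 : ∑ z ∈ B', p z = (∑ z ∈ B',
        (((S.filter (fun x => Z x = z)).filter (fun x => X x = 0)).card : ℝ)) / s := by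
      rw [Finset.sum_div]
    have e2 : ∑ z ∈ B, a z = (∑ z ∈ B, ((S.filter (fun x => Z x = z)).card : ℝ)) / s := by
      rw [Finset.sum_div]
    rw [e1, e2]
    have e3 : (1 : ℝ) = s / s := (div_self hs0.ne').symm
    rw [e3, ← sub_div, ← add_div]
    refine div_le_div_of_nonneg_right ?_ hs0.le
    rw [← hout]
    exact hcard
  have hsplit : ∑ z ∈ B', p z = ∑ z ∈ B' \ H, p z + ∑ z ∈ H, p z :=
    (Finset.sum_sdiff hHB).symm
  have hH1 : ∑ z ∈ H, p z ≤ 4 / η ^ 2 * ∑ z ∈ B, (c z - b z ^ 2 / a z) := by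
    have h1 : ∑ z ∈ H, p z ≤ ∑ z ∈ H, 4 / η ^ 2 * (c z - b z ^ 2 / a z) :=
      Finset.sum_le_sum (fun z hz => ssc_alg (a z) (b z) (c z) (p z) η hη (hH z hz).1 (hp0 z)
        (hH z hz).2 (hcs z) (hc0 z))
    refine h1.trans ?_
    rw [← Finset.mul_sum]
    refine mul_le_mul_of_nonneg_left ?_ (by positivity)
    exact Finset.sum_le_sum_of_subset_of_nonneg (hHB.trans hB) (fun z _ _ => he0 z)
  have hH2 : ∑ z ∈ B' \ H, p z ≤ ∑ z ∈ B' \ H, a z := Finset.sum_le_sum (fun z _ => hpa z)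
  have hH3 : ∑ z ∈ B, (c z - b z ^ 2 / a z) ≤
      (∑ x ∈ S, (X x : ℝ) ^ 2) * s / T ^ 2 - ∑ z ∈ B, b z ^ 2 / a z := by
    rw [Finset.sum_sub_distrib]
    linarith
  have hH4 := mul_le_mul_of_nonneg_left hH3 (show 0 ≤ 4 / η ^ 2 by positivity)
  have hfin : ((G.filter (fun x => X x = 0)).card : ℝ) / s ≤
      4 / η ^ 2 * ((∑ x ∈ S, (X x : ℝ) ^ 2) * s / T ^ 2 - ∑ z ∈ B, b z ^ 2 / a z) +
        (∑ z ∈ B' \ H, a z) + (1 - ∑ z ∈ B, a z) := by linarith
  exact hfin

/-! ### Poisson weights -/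

theorem ssc_po_pos (x : ℝ) (hx : 0 < x) (z : ℕ) : 0 < po x z := by
  unfold po
  have : (0 : ℝ) < (z.factorial : ℝ) := by exact_mod_cast z.factorial_pos
  positivity

theorem ssc_po_nonneg (x : ℝ) (hx : 0 ≤ x) (z : ℕ) : 0 ≤ po x z := by
  unfold po
  positivity

theorem ssc_po_zero (x : ℝ) : po x 0 = Real.exp (-x) := by
  simp [po]

theorem ssc_hasSum_exp (x : ℝ) : HasSum (fun n : ℕ => x ^ n / (n.factorial : ℝ)) (Real.exp x) := by
  rw [Real.exp_eq_exp_ℝ]
  exact NormedSpace.expSeries_div_hasSum_exp x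

theorem ssc_hasSum_po (x : ℝ) : HasSum (fun z => po x z) 1 := by
  have h := (ssc_hasSum_exp x).mul_left (Real.exp (-x))
  rw [← Real.exp_add] at h
  have e : -x + x = 0 := by ring
  rw [e, Real.exp_zero] at h
  have e2 : (fun z => po x z) = fun n : ℕ => Real.exp (-x) * (x ^ n / (n.factorial : ℝ)) := by
    funext z
    unfold po
    ring
  rw [e2]
  exact h

theorem ssc_hasSum_b2a (l t : ℝ) (hl : 0 < l) :
    HasSum (fun z => po (l * t) z ^ 2 / po l z) (Real.exp (l * (t - 1) ^ 2)) := by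
  have h := (ssc_hasSum_exp (l * t ^ 2)).mul_left (Real.exp (l - 2 * (l * t)))
  rw [← Real.exp_add] at h
  have e : l - 2 * (l * t) + l * t ^ 2 = l * (t - 1) ^ 2 := by ring
  rw [e] at h
  have e2 : (fun z => po (l * t) z ^ 2 / po l z) =
      fun n : ℕ => Real.exp (l - 2 * (l * t)) * ((l * t ^ 2) ^ n / (n.factorial : ℝ)) := by
    funext z
    have h1 : (z.factorial : ℝ) ≠ 0 := by exact_mod_cast z.factorial_ne_zero
    have h2 : Real.exp (l - 2 * (l * t)) = Real.exp (-(l * t)) ^ 2 / Real.exp (-l) := by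
      rw [← Real.exp_nat_mul, ← Real.exp_sub]
      congr 1
      push_cast
      ring
    rw [h2]
    unfold po
    have h3 : Real.exp (-l) ≠ 0 := (Real.exp_pos _).ne'
    have h4 : l ^ z ≠ 0 := (pow_pos hl z).ne'
    field_simp
    ring
  rw [e2]
  exact h

theorem ssc_hasSum_a2b (l t : ℝ) (hl : 0 < l) (ht : 0 < t) :
    HasSum (fun z => po l z ^ 2 / po (l * t) z) (Real.exp (l * (t - 1) ^ 2 / t)) := by
  have h := (ssc_hasSum_exp (l / t)).mul_left (Real.exp (l * t - 2 * l))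
  rw [← Real.exp_add] at h
  have e : l * t - 2 * l + l / t = l * (t - 1) ^ 2 / t := by
    field_simp
    ring
  rw [e] at h
  have e2 : (fun z => po l z ^ 2 / po (l * t) z) =
      fun n : ℕ => Real.exp (l * t - 2 * l) * ((l / t) ^ n / (n.factorial : ℝ)) := by
    funext z
    have h1 : (z.factorial : ℝ) ≠ 0 := by exact_mod_cast z.factorial_ne_zero
    have h2 : Real.exp (l * t - 2 * l) = Real.exp (-l) ^ 2 / Real.exp (-(l * t)) := by
      rw [← Real.exp_nat_mul, ← Real.exp_sub]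
      congr 1
      push_cast
      ring
    rw [h2]
    unfold po
    have h3 : Real.exp (-(l * t)) ≠ 0 := (Real.exp_pos _).ne'
    have h4 : l ^ z ≠ 0 := (pow_pos hl z).ne'
    have h5 : t ^ z ≠ 0 := (pow_pos ht z).ne'
    simp only [div_pow, mul_pow]
    field_simp
  rw [e2]
  exact h

/-- One factor of the bound for the classes where `b / a` is small. -/
theorem ssc_factor (l t : ℝ) (hl : 0 < l) (ht : 1 / 2 ≤ t) (U : Finset ℕ) :
    ∑ z ∈ U, po l z ^ 2 / po (l * t) z ≤ Real.exp (2 * (l * (t - 1) ^ 2)) := by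
  have ht0 : 0 < t := by linarith
  have h := ssc_hasSum_a2b l t hl ht0
  have h1 : ∑ z ∈ U, po l z ^ 2 / po (l * t) z ≤ Real.exp (l * (t - 1) ^ 2 / t) :=
    sum_le_hasSum U (fun z _ => div_nonneg (sq_nonneg _) (ssc_po_nonneg _ (by positivity) _)) h
  refine h1.trans (Real.exp_le_exp.2 ?_)
  rw [div_le_iff₀ ht0]
  nlinarith [mul_nonneg hl.le (sq_nonneg (t - 1))]

/-! ### Boxes -/

/-- A box. -/
def ssc_box (m K : ℕ) : Finset (Fin m → ℕ) := Fintype.piFinset (fun _ => range K)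

theorem ssc_box_tendsto (m : ℕ) (F : Fin m → ℕ → ℝ) (v : Fin m → ℝ)
    (h : ∀ k, HasSum (F k) (v k)) :
    Tendsto (fun K => ∑ z ∈ ssc_box m K, ∏ k, F k (z k)) atTop (𝓝 (∏ k, v k)) := by
  have e : (fun K => ∑ z ∈ ssc_box m K, ∏ k, F k (z k)) = fun K => ∏ k, ∑ j ∈ range K, F k j := by
    funext K
    exact Finset.sum_prod_piFinset (range K) F
  rw [e]
  exact tendsto_finsetProd _ (fun k _ => (h k).tendsto_sum_nat)

/-- The bound for the sum of `a ^ 2 / b` over the classes without cycles of length less than `g`. -/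
theorem ssc_light (l t : ℕ → ℝ) (g m K : ℕ) (hl : ∀ k, 0 < l k) (ht : ∀ k, 0 ≤ t k)
    (htg : ∀ k, g ≤ k → 1 / 2 ≤ t k) (hs : Summable (fun k : ℕ => l k * (t k - 1) ^ 2)) :
    ∑ z ∈ (ssc_box m K).filter (fun z => ∀ k : Fin m, (k : ℕ) < g → z k = 0),
      ((∏ k : Fin m, po (l k) (z k)) ^ 2 / ∏ k : Fin m, po (l k * t k) (z k)) ≤
    Real.exp (∑ k ∈ range g, l k * t k + 2 * ∑' k : ℕ, l k * (t k - 1) ^ 2) := by
  classical
  have e1 : ∀ z : Fin m → ℕ, ((∏ k : Fin m, po (l k) (z k)) ^ 2 / ∏ k : Fin m, po (l k * t k) (z k)) =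
      ∏ k : Fin m, po (l k) (z k) ^ 2 / po (l k * t k) (z k) := by
    intro z
    rw [Finset.prod_div_distrib, Finset.prod_pow]
  have h0 : ∀ (k : ℕ) (j : ℕ), 0 ≤ po (l k) j ^ 2 / po (l k * t k) j := fun k j =>
    div_nonneg (sq_nonneg _) (ssc_po_nonneg _ (mul_nonneg (hl k).le (ht k)) _)
  have hsub : (ssc_box m K).filter (fun z => ∀ k : Fin m, (k : ℕ) < g → z k = 0) ⊆
      Fintype.piFinset (fun k : Fin m => if (k : ℕ) < g then {0} else range K) := by
    intro z hz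
    rw [Finset.mem_filter] at hz
    rw [Fintype.mem_piFinset]
    intro k
    by_cases hk : (k : ℕ) < g
    · rw [if_pos hk]
      exact Finset.mem_singleton.2 (hz.2 k hk)
    · rw [if_neg hk]
      exact Fintype.mem_piFinset.1 hz.1 k
  have h1 : ∑ z ∈ (ssc_box m K).filter (fun z => ∀ k : Fin m, (k : ℕ) < g → z k = 0),
      ((∏ k : Fin m, po (l k) (z k)) ^ 2 / ∏ k : Fin m, po (l k * t k) (z k)) ≤
      ∏ k : Fin m, ∑ j ∈ (if (k : ℕ) < g then {0} else range K), po (l k) j ^ 2 / po (l k * t k) j := by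
    rw [Finset.prod_univ_sum]
    simp only [e1]
    exact Finset.sum_le_sum_of_subset_of_nonneg hsub
      (fun z _ _ => Finset.prod_nonneg (fun k _ => h0 k (z k)))
  refine h1.trans ?_
  set w : ℕ → ℝ := fun k => (if k < g then l k * t k else 0) + 2 * (l k * (t k - 1) ^ 2) with hw
  have h2 : ∀ k : Fin m, ∑ j ∈ (if (k : ℕ) < g then {0} else range K),
      po (l k) j ^ 2 / po (l k * t k) j ≤ Real.exp (w k) := by
    intro k
    by_cases hk : (k : ℕ) < g
    · rw [if_pos hk, Finset.sum_singleton, ssc_po_zero, ssc_po_zero, ← Real.exp_nat_mul,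
        ← Real.exp_sub]
      refine Real.exp_le_exp.2 ?_
      rw [hw]
      simp only [if_pos hk]
      have := mul_nonneg (hl k).le (sq_nonneg (t k - 1))
      have := (hl k).le
      push_cast
      linarith
    · rw [if_neg hk]
      refine (ssc_factor (l k) (t k) (hl k) (htg k (not_lt.1 hk)) (range K)).trans ?_
      refine Real.exp_le_exp.2 ?_
      rw [hw]
      simp only [if_neg hk]
      linarith
  have h2' : ∏ k : Fin m, ∑ j ∈ (if (k : ℕ) < g then {0} else range K),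
      po (l k) j ^ 2 / po (l k * t k) j ≤ ∏ k : Fin m, Real.exp (w k) :=
    Finset.prod_le_prod (fun k _ => Finset.sum_nonneg (fun j _ => h0 (k : ℕ) j)) (fun k _ => h2 k)
  refine h2'.trans ?_
  rw [← Real.exp_sum]
  refine Real.exp_le_exp.2 ?_
  rw [Fin.sum_univ_eq_sum_range w m, hw, Finset.sum_add_distrib]
  have h3 : ∑ k ∈ range m, (if k < g then l k * t k else 0) ≤ ∑ k ∈ range g, l k * t k := by
    rw [← Finset.sum_filter]
    refine Finset.sum_le_sum_of_subset_of_nonneg ?_ (fun k _ _ => mul_nonneg (hl k).le (ht k))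
    intro k hk
    exact Finset.mem_range.2 (Finset.mem_filter.1 hk).2
  have h4 : ∑ k ∈ range m, 2 * (l k * (t k - 1) ^ 2) ≤ 2 * ∑' k : ℕ, l k * (t k - 1) ^ 2 := by
    rw [← Finset.mul_sum]
    refine mul_le_mul_of_nonneg_left ?_ (by norm_num)
    exact hs.sum_le_tsum _ (fun k _ => mul_nonneg (hl k).le (sq_nonneg _))
  linarith

/-- The choice of the box. -/
theorem ssc_choice (l t : ℕ → ℝ) (hl : ∀ k, 0 < l k)
    (hs : Summable (fun k : ℕ => l k * (t k - 1) ^ 2)) (ε e1 : ℝ) (hε : 0 < ε) (he1 : 0 < e1) :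
    ∃ m K : ℕ, Real.exp (∑' k : ℕ, l k * (t k - 1) ^ 2) - e1 <
      ∑ z ∈ ssc_box m K, (∏ k : Fin m, po (l k * t k) (z k)) ^ 2 / ∏ k : Fin m, po (l k) (z k) ∧
      1 - ε < ∑ z ∈ ssc_box m K, ∏ k : Fin m, po (l k) (z k) := by
  have h1 : Tendsto (fun m : ℕ => Real.exp (∑ k ∈ range m, l k * (t k - 1) ^ 2)) atTop
      (𝓝 (Real.exp (∑' k : ℕ, l k * (t k - 1) ^ 2))) :=
    (Real.continuous_exp.tendsto _).comp hs.hasSum.tendsto_sum_nat
  obtain ⟨m, hm⟩ := (h1.eventually (lt_mem_nhds (show Real.exp (∑' k : ℕ, l k * (t k - 1) ^ 2) - e1 <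
    Real.exp (∑' k : ℕ, l k * (t k - 1) ^ 2) by linarith))).exists
  have h2 := ssc_box_tendsto m (fun k z => po (l k * t k) z ^ 2 / po (l k) z)
    (fun k => Real.exp (l k * (t k - 1) ^ 2)) (fun k => ssc_hasSum_b2a (l k) (t k) (hl k))
  have h3 := ssc_box_tendsto m (fun k z => po (l k) z) (fun _ => 1)
    (fun k => ssc_hasSum_po (l k))
  rw [Finset.prod_const_one] at h3
  rw [← Real.exp_sum, Fin.sum_univ_eq_sum_range (fun k => l k * (t k - 1) ^ 2) m] at h2
  obtain ⟨K, hK1, hK2⟩ := ((h2.eventually (lt_mem_nhds hm)).and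
    (h3.eventually (lt_mem_nhds (show 1 - ε < 1 by linarith)))).exists
  refine ⟨m, K, ?_, hK2⟩
  have e : ∀ z : Fin m → ℕ,
      (∏ k : Fin m, po (l k * t k) (z k)) ^ 2 / ∏ k : Fin m, po (l k) (z k) =
      ∏ k : Fin m, po (l k * t k) (z k) ^ 2 / po (l k) (z k) := by
    intro z
    rw [Finset.prod_div_distrib, Finset.prod_pow]
  simp only [e]
  exact hK1

theorem SSC : ST_SSC := by
  intro A S G X Z l t g hl ht htg hs hS hT hPa hPb hM hGS hGZ
  set L : ℝ := Real.exp (∑' k : ℕ, l k * (t k - 1) ^ 2) with hL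
  set C : ℝ := Real.exp (∑ k ∈ range g, l k * t k + 2 * ∑' k : ℕ, l k * (t k - 1) ^ 2) with hC
  have hC0 : 0 < C := Real.exp_pos _
  rw [Metric.tendsto_atTop]
  intro ε' hε'
  obtain ⟨ε, hε, hεε⟩ : ∃ ε : ℝ, 0 < ε ∧ 11 * ε < ε' := ⟨ε' / 12, by positivity, by linarith⟩
  set η : ℝ := ε / C with hη
  have hη0 : 0 < η := div_pos hε hC0
  have hηC : η * C = ε := by rw [hη]; field_simp
  set e1 : ℝ := ε * η ^ 2 with he1
  have he10 : 0 < e1 := by positivity
  obtain ⟨m, K, hK1, hK2⟩ := ssc_choice l t hl hs ε e1 hε he10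
  set a : (Fin m → ℕ) → ℝ := fun z => ∏ k : Fin m, po (l k) (z k) with ha
  set b : (Fin m → ℕ) → ℝ := fun z => ∏ k : Fin m, po (l k * t k) (z k) with hb
  have ha0 : ∀ z, 0 < a z := fun z => Finset.prod_pos (fun k _ => ssc_po_pos _ (hl k) _)
  have hb0 : ∀ z : Fin m → ℕ, (∀ k : Fin m, (k : ℕ) < g → z k = 0) → 0 < b z := by
    intro z hz
    refine Finset.prod_pos (fun k _ => ?_)
    by_cases hk : (k : ℕ) < g
    · rw [hz k hk, ssc_po_zero]
      exact Real.exp_pos _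
    · have h1 := htg k (not_lt.1 hk)
      exact ssc_po_pos _ (mul_pos (hl k) (by linarith)) _
  set B : Finset (Fin m → ℕ) := ssc_box m K with hB
  set B' : Finset (Fin m → ℕ) := B.filter (fun z => ∀ k : Fin m, (k : ℕ) < g → z k = 0) with hB'
  have hB'B : B' ⊆ B := Finset.filter_subset _ _
  classical
  set H : Finset (Fin m → ℕ) := B'.filter (fun z => η * a z ≤ b z) with hH
  have hHB : H ⊆ B' := Finset.filter_subset _ _
  have hlight : ∑ z ∈ B' \ H, a z ≤ ε := by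
    have h1 : ∀ z ∈ B' \ H, a z ≤ η * (a z ^ 2 / b z) := by
      intro z hz
      rw [Finset.mem_sdiff] at hz
      have hz1 : 0 < b z := hb0 z (Finset.mem_filter.1 hz.1).2
      have hz2 : b z < η * a z := by
        by_contra hcon
        exact hz.2 (Finset.mem_filter.2 ⟨hz.1, not_lt.1 hcon⟩)
      rw [← mul_div_assoc, le_div_iff₀ hz1]
      nlinarith [ha0 z]
    have h2 : ∑ z ∈ B' \ H, a z ≤ ∑ z ∈ B' \ H, η * (a z ^ 2 / b z) := Finset.sum_le_sum h1
    have h3 : ∑ z ∈ B' \ H, η * (a z ^ 2 / b z) ≤ ∑ z ∈ B', η * (a z ^ 2 / b z) :=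
      Finset.sum_le_sum_of_subset_of_nonneg Finset.sdiff_subset (fun z hz _ =>
        mul_nonneg hη0.le (div_nonneg (sq_nonneg _) (hb0 z (Finset.mem_filter.1 hz).2).le))
    have h4 : ∑ z ∈ B', (a z ^ 2 / b z) ≤ C := ssc_light l t g m K hl ht htg hs
    have h5 := mul_le_mul_of_nonneg_left h4 hη0.le
    have h6 : ∑ z ∈ B', η * (a z ^ 2 / b z) = η * ∑ z ∈ B', (a z ^ 2 / b z) :=
      (Finset.mul_sum _ _ _).symm
    linarith
  -- the limits
  have la : ∀ z : Fin m → ℕ, Tendsto (fun N => (((S N).filter (fun x => Z N m x = z)).card : ℝ) /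
      ((S N).card : ℝ)) atTop (𝓝 (a z)) := fun z => hPa m z
  have lb : ∀ z : Fin m → ℕ, Tendsto (fun N => (∑ x ∈ (S N).filter (fun x => Z N m x = z),
      (X N x : ℝ)) / ∑ x ∈ S N, (X N x : ℝ)) atTop (𝓝 (b z)) := fun z => hPb m z
  have l1 : Tendsto (fun N => ∑ z ∈ B, ((∑ x ∈ (S N).filter (fun x => Z N m x = z),
      (X N x : ℝ)) / ∑ x ∈ S N, (X N x : ℝ)) ^ 2 /
      ((((S N).filter (fun x => Z N m x = z)).card : ℝ) / ((S N).card : ℝ))) atTop
      (𝓝 (∑ z ∈ B, b z ^ 2 / a z)) :=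
    tendsto_finsetSum _ (fun z _ => ((lb z).pow 2).div (la z) (ha0 z).ne')
  have l2 : Tendsto (fun N => ∑ z ∈ B, (((S N).filter (fun x => Z N m x = z)).card : ℝ) /
      ((S N).card : ℝ)) atTop (𝓝 (∑ z ∈ B, a z)) :=
    tendsto_finsetSum _ (fun z _ => la z)
  have l3 : Tendsto (fun N => ∑ z ∈ B' \ H, (((S N).filter (fun x => Z N m x = z)).card : ℝ) /
      ((S N).card : ℝ)) atTop (𝓝 (∑ z ∈ B' \ H, a z)) :=
    tendsto_finsetSum _ (fun z _ => la z)
  have v1 := l1.eventually (lt_mem_nhds hK1)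
  have v2 := l2.eventually (lt_mem_nhds hK2)
  have v3 := l3.eventually (gt_mem_nhds (show ∑ z ∈ B' \ H, a z < 2 * ε by linarith))
  have v4 := hM.eventually (gt_mem_nhds (show L < L + e1 by linarith))
  have v5 : ∀ᶠ N in atTop, ∀ z ∈ H,
      0 < (((S N).filter (fun x => Z N m x = z)).card : ℝ) / ((S N).card : ℝ) ∧
      η / 2 * ((((S N).filter (fun x => Z N m x = z)).card : ℝ) / ((S N).card : ℝ)) ≤
        (∑ x ∈ (S N).filter (fun x => Z N m x = z), (X N x : ℝ)) / ∑ x ∈ S N, (X N x : ℝ) := by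
    rw [Filter.eventually_all_finset]
    intro z hz
    have hz1 : η * a z ≤ b z := (Finset.mem_filter.1 hz).2
    have u1 := (la z).eventually (lt_mem_nhds (ha0 z))
    have u2 := ((lb z).sub ((la z).const_mul (η / 2))).eventually
      (lt_mem_nhds (show 0 < b z - η / 2 * a z by nlinarith [mul_pos hη0 (ha0 z)]))
    filter_upwards [u1, u2] with N n1 n2
    exact ⟨n1, by linarith⟩
  obtain ⟨N0, hN0⟩ := Filter.eventually_atTop.1
    ((((((v1.and v2).and v3).and v4).and v5).and hS).and hT)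
  refine ⟨N0, fun N hN => ?_⟩
  obtain ⟨⟨⟨⟨⟨⟨w1, w2⟩, w3⟩, w4⟩, w5⟩, w6⟩, w7⟩ := hN0 N hN
  have hmain := ssc_fin (S N) (G N) (X N) (Z N m) B B' H η hη0 (hGS N) hB'B hHB
    (fun x hx hxB => Finset.mem_filter.2 ⟨hxB, fun k hk => hGZ N m x hx k hk⟩) w6 w7 w5
  have hpos : 0 ≤ (((G N).filter (fun x => X N x = 0)).card : ℝ) / ((S N).card : ℝ) := by
    positivity
  rw [Real.dist_eq, sub_zero, abs_of_nonneg hpos]
  have hdiff : (∑ x ∈ S N, (X N x : ℝ) ^ 2) * ((S N).card : ℝ) / (∑ x ∈ S N, (X N x : ℝ)) ^ 2 -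
      ∑ z ∈ B, ((∑ x ∈ (S N).filter (fun x => Z N m x = z), (X N x : ℝ)) /
        ∑ x ∈ S N, (X N x : ℝ)) ^ 2 /
        ((((S N).filter (fun x => Z N m x = z)).card : ℝ) / ((S N).card : ℝ)) ≤ 2 * e1 := by
    linarith
  have h4 : 4 / η ^ 2 * (2 * e1) = 8 * ε := by
    rw [he1]
    field_simp
    ring
  have h5 := mul_le_mul_of_nonneg_left hdiff (show 0 ≤ 4 / η ^ 2 by positivity)
  rw [h4] at h5
  linarith

end Pool.Agent.Helper45.T4
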